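import Mathlib

/-!
Modules over an Artinian local ring whose tensor product with their canonical dual is the canonical
module: definitions.
-/

open scoped TensorProduct

universe u

namespace Pool.Agent.H4.CD

variable (k : Type u) [Field k] (R : Type u) [CommRing R] [Algebra k R] (m : Ideal R)
  (W M E : Type u) [AddCommGroup W] [Module R W] [AddCommGroup M] [Module R M]
  [AddCommGroup E] [Module R E]

/-- `R` is an Artinian local ring with maximal ideal `m`, `m ^ 2 = 0`, residue field `k` and
`dim R = n` -/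
def IsRing (n : ℕ) : Prop :=
  IsArtinianRing R ∧ IsLocalRing R ∧ m.IsMaximal ∧ m ^ 2 = ⊥ ∧
    Function.Bijective (algebraMap k (R ⧸ m)) ∧ Module.finrank k R = n

/-- `M` and `E` are isomorphic -/
def Iso : Prop := ∃ f : M →ₗ[R] E, Function.Bijective f

/-- `W` is a canonical module of the Artinian local ring `R` with maximal ideal `m`: a finitely
generated injective module with `Hom_R(R/m, W) ≅ R/m`, i.e. the injective hull of `R/m` -/
def IsCanonical : Prop :=
  Module.Finite R W ∧ Module.Injective R W ∧ Iso R ((R ⧸ m) →ₗ[R] W) (R ⧸ m)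

/-- `M` is finitely generated, `M ⊗ Hom(M, W) ≅ W`, but neither `M ≅ R` nor `M ≅ W` -/
def IsExample : Prop :=
  Module.Finite R M ∧ Iso R (M ⊗[R] (M →ₗ[R] W)) W ∧ ¬ Iso R M R ∧ ¬ Iso R M W

/-- there is a non-split exact sequence `0 → M → E → M → 0` -/
def NonSplit : Prop :=
  ∃ (i : M →ₗ[R] E) (p : E →ₗ[R] M), Function.Injective i ∧ Function.Surjective p ∧
    Function.Exact i p ∧ ¬ ∃ s : M →ₗ[R] E, ∀ x, p (s x) = x

/-- all of this -/
def All (n : ℕ) : Prop :=
  IsRing k R m n ∧ IsCanonical R m W ∧ IsExample R W M ∧ NonSplit R M E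

end Pool.Agent.H4.CD
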