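import Pool.Agent.H4.CD.Defs
import Pool.Agent.H16.CanDual

/-!
The short form of the counterexample.
-/

open scoped TensorProduct

universe u

namespace Pool.Agent.H4.CD

theorem main (k : Type u) [Field k] (a b : ℕ) (ha : 2 ≤ a) (hb : 2 ≤ b) :
    ∃ (R : Type u) (_ : CommRing R) (_ : Algebra k R) (m : Ideal R)
      (W : Type u) (_ : AddCommGroup W) (_ : Module R W)
      (M : Type u) (_ : AddCommGroup M) (_ : Module R M)
      (E : Type u) (_ : AddCommGroup E) (_ : Module R E), All k R m W M E (a * b + 1) := by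
  obtain ⟨R, i1, i2, i3, i4, W, i5, i6, M, i7, i8, h1, h2, h3, ⟨h4, h5, h6⟩, h7, h8, h9, h10,
    E, i9, i10, i, p, h⟩ := Pool.Agent.H16.CanDual.main k a b ha hb
  have j1 : Iso R ((R ⧸ IsLocalRing.maximalIdeal R) →ₗ[R] W) (R ⧸ IsLocalRing.maximalIdeal R) := by
    obtain ⟨e⟩ := h6
    exact ⟨e.toLinearMap, e.bijective⟩
  have j2 : Iso R (M ⊗[R] (M →ₗ[R] W)) W := by
    obtain ⟨e⟩ := h8
    exact ⟨e.toLinearMap, e.bijective⟩
  have j3 : ¬ Iso R M R := fun ⟨f, hf⟩ => h9.false (LinearEquiv.ofBijective f hf)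
  have j4 : ¬ Iso R M W := fun ⟨f, hf⟩ => h10.false (LinearEquiv.ofBijective f hf)
  exact ⟨R, i1, i2, IsLocalRing.maximalIdeal R, W, i5, i6, M, i7, i8, E, i9, i10,
    ⟨i4, i3, inferInstance, h3, h1, h2⟩, ⟨h4, h5, j1⟩, ⟨h7, j2, j3, j4⟩, ⟨i, p, h⟩⟩

end Pool.Agent.H4.CD
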